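import Mathlib

/-! # CYD: irreducibility modulo a prime from a certificate (Rabin test)

Polynomials modulo `p` are lists of natural numbers, highest coefficient first. -/

set_option autoImplicit false

open Polynomial

namespace Pool.Agent.CYD.H81

/-! ### the computation -/

/-- `t * R + X * v` -/
noncomputable def sh (p t : ℕ) (v R : List ℕ) : List ℕ :=
  List.rec (motive := fun _ => List ℕ → List ℕ) (fun _ => [])
    (fun r _ ih v => List.rec (motive := fun _ => List ℕ) [Nat.mod (Nat.mul t r) p]
      (fun a v _ => Nat.mod (Nat.add a (Nat.mul t r)) p :: ih v) v) R v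

theorem sh_cons (p t a r : ℕ) (v R : List ℕ) :
    sh p t (a :: v) (r :: R) = Nat.mod (Nat.add a (Nat.mul t r)) p :: sh p t v R := rfl

theorem sh_nil (p t r : ℕ) (R : List ℕ) :
    sh p t [] (r :: R) = [Nat.mod (Nat.mul t r) p] := rfl

/-- multiplication by `X` modulo `X ^ d - R` -/
noncomputable def mulX (p : ℕ) (R : List ℕ) : List ℕ → List ℕ
  | [] => []
  | t :: v => sh p t v R

/-- multiplication by `X ^ n` -/
noncomputable def itX (p : ℕ) (R : List ℕ) : ℕ → List ℕ → List ℕ
  | 0, v => v
  | n + 1, v => itX p R n (mulX p R v)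

/-- `a * Q + S` -/
noncomputable def addm (p a : ℕ) (Q S : List ℕ) : List ℕ :=
  List.rec (motive := fun _ => List ℕ → List ℕ) (fun _ => [])
    (fun q _ ih S => List.rec (motive := fun _ => List ℕ) []
      (fun s S _ => Nat.mod (Nat.add (Nat.mul a q) s) p :: ih S) S) Q S

theorem addm_cons (p a q s : ℕ) (Q S : List ℕ) :
    addm p a (q :: Q) (s :: S) = Nat.mod (Nat.add (Nat.mul a q) s) p :: addm p a Q S := rfl

theorem addm_nil (p a : ℕ) (S : List ℕ) : addm p a [] S = [] := rfl

/-- linear combination of the rows -/
noncomputable def comb (p : ℕ) (z : List ℕ) : List ℕ → List (List ℕ) → List ℕ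
  | a :: v, Q :: Qs => addm p a Q (comb p z v Qs)
  | _, _ => z

/-- product, `acc * X ^ len + U * v` -/
noncomputable def mulm (p : ℕ) (R v : List ℕ) : List ℕ → List ℕ → List ℕ
  | acc, [] => acc
  | acc, u :: U => mulm p R v (addm p u v (mulX p R acc)) U

/-- equality of lists -/
def beqL : List ℕ → List ℕ → Bool
  | [], [] => true
  | a :: v, b :: w => Nat.beq a b && beqL v w
  | _, _ => false

/-- the rows are the powers of `X ^ p` -/
noncomputable def rowsOK (p : ℕ) (R one : List ℕ) : List (List ℕ) → Bool
  | [] => false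
  | [Q] => beqL Q one
  | Q' :: Q :: Qs => beqL (itX p R p Q) Q' && rowsOK p R one (Q :: Qs)

/-- the chain of the powers `X ^ (p ^ k)` -/
noncomputable def chainOK (p : ℕ) (z xx : List ℕ) (Qs : List (List ℕ)) : List (List ℕ) → Bool
  | [] => false
  | [v] => beqL v xx
  | v' :: v :: vs => beqL (comb p z v Qs) v' && chainOK p z xx Qs (v :: vs)

theorem nat_mod' (a b : ℕ) : Nat.mod a b = a % b := rfl
theorem nat_add' (a b : ℕ) : Nat.add a b = a + b := rfl
theorem nat_mul' (a b : ℕ) : Nat.mul a b = a * b := rfl

/-! ### its meaning -/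

section meaning

variable {K : Type*} [CommRing K]

/-- the value of a list -/
def ev (x : K) : List ℕ → K
  | [] => 0
  | a :: l => (a : K) * x ^ l.length + ev x l

theorem beqL_eq {v w : List ℕ} (h : beqL v w = true) : v = w := by
  induction v generalizing w with
  | nil => cases w with
    | nil => rfl
    | cons b w => simp [beqL] at h
  | cons a v ih => cases w with
    | nil => simp [beqL] at h
    | cons b w =>
      simp only [beqL, Bool.and_eq_true] at h
      rw [Nat.eq_of_beq_eq_true h.1, ih h.2]

variable {p : ℕ} [CharP K p] {x : K}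

theorem cast_mod (n : ℕ) : ((Nat.mod n p : ℕ) : K) = n := by
  change ((n % p : ℕ) : K) = n
  conv_rhs => rw [← Nat.div_add_mod n p]
  push_cast
  rw [CharP.cast_eq_zero K p]; ring

theorem sh_spec (t : ℕ) (v R : List ℕ) (h : v.length + 1 = R.length) :
    (sh p t v R).length = R.length ∧ ev x (sh p t v R) = x * ev x v + t * ev x R := by
  induction R generalizing v with
  | nil => simp at h
  | cons r R ih =>
    cases v with
    | nil =>
      have hR : R = [] := by
        have : R.length = 0 := by simpa using h.symm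
        exact List.eq_nil_of_length_eq_zero this
      subst hR
      constructor
      · simp [sh_nil]
      · simp only [sh_nil, ev, List.length_nil, pow_zero, mul_one, add_zero]
        rw [cast_mod (p := p), nat_mul']
        push_cast
        ring
    | cons a v =>
      have h' : v.length + 1 = R.length := by simpa using h
      obtain ⟨h1, h2⟩ := ih v h'
      constructor
      · simp [sh_cons, h1]
      · simp only [sh_cons, ev, h1, h2]
        rw [cast_mod (p := p), ← h', nat_add', nat_mul']
        push_cast
        ring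

variable {R : List ℕ} (hR : x ^ R.length = ev x R)
include hR

theorem mulX_spec (v : List ℕ) (hv : v.length = R.length) :
    (mulX p R v).length = R.length ∧ ev x (mulX p R v) = x * ev x v := by
  cases v with
  | nil => simpa [mulX, ev] using hv
  | cons t v =>
    have h' : v.length + 1 = R.length := by simpa using hv
    obtain ⟨h1, h2⟩ := sh_spec (p := p) (x := x) t v R h'
    refine ⟨h1, ?_⟩
    simp only [mulX, ev, h2]
    rw [← hR, ← h', pow_succ]
    ring

theorem itX_spec (n : ℕ) (v : List ℕ) (hv : v.length = R.length) :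
    (itX p R n v).length = R.length ∧ ev x (itX p R n v) = x ^ n * ev x v := by
  induction n generalizing v with
  | zero => simp [itX, hv]
  | succ n ih =>
    obtain ⟨h1, h2⟩ := mulX_spec (p := p) hR v hv
    obtain ⟨h3, h4⟩ := ih _ h1
    refine ⟨h3, ?_⟩
    rw [itX, h4, h2]; ring

omit hR in
theorem addm_spec (a : ℕ) (Q S : List ℕ) (h : Q.length = S.length) :
    (addm p a Q S).length = Q.length ∧ ev x (addm p a Q S) = a * ev x Q + ev x S := by
  induction Q generalizing S with
  | nil =>
    cases S with
    | nil => simp [addm_nil, ev]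
    | cons s S => simp at h
  | cons q Q ih =>
    cases S with
    | nil => simp at h
    | cons s S =>
      have h' : Q.length = S.length := by simpa using h
      obtain ⟨h1, h2⟩ := ih S h'
      constructor
      · simp [addm_cons, h1]
      · simp only [addm_cons, ev, h1, h2]
        rw [cast_mod (p := p), ← h', nat_add', nat_mul']
        push_cast
        ring

theorem mulm_spec (v : List ℕ) (hv : v.length = R.length) (U acc : List ℕ)
    (hacc : acc.length = R.length) :
    (mulm p R v acc U).length = R.length ∧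
      ev x (mulm p R v acc U) = ev x acc * x ^ U.length + ev x U * ev x v := by
  induction U generalizing acc with
  | nil => simp [mulm, ev, hacc]
  | cons u U ih =>
    obtain ⟨h1, h2⟩ := mulX_spec (p := p) hR acc hacc
    obtain ⟨h3, h4⟩ := addm_spec (p := p) (x := x) u v (mulX p R acc) (by rw [hv, h1])
    obtain ⟨h5, h6⟩ := ih (addm p u v (mulX p R acc)) (by rw [h3, hv])
    refine ⟨h5, ?_⟩
    rw [mulm, h6, h4, h2]
    simp only [ev, List.length_cons]
    ring

/-- all rows have the right length and value -/
def Rows (x : K) (p : ℕ) (d : ℕ) : List (List ℕ) → Prop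
  | [] => True
  | Q :: Qs => Q.length = d ∧ ev x Q = (x ^ p) ^ Qs.length ∧ Rows x p d Qs

theorem rows_spec (one : List ℕ) (h1 : one.length = R.length) (h1' : ev x one = 1)
    (Qs : List (List ℕ)) (h : rowsOK p R one Qs = true) : Rows x p R.length Qs := by
  induction Qs with
  | nil => simp [rowsOK] at h
  | cons Q' Qs ih =>
    cases Qs with
    | nil =>
      rw [rowsOK] at h
      rw [beqL_eq h]
      exact ⟨h1, by simpa using h1', trivial⟩
    | cons Q Qs =>
      rw [rowsOK, Bool.and_eq_true] at h
      have h2 := ih h.2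
      obtain ⟨h3, h4⟩ := itX_spec (p := p) hR p Q h2.1
      rw [← beqL_eq h.1]
      refine ⟨h3, ?_, h2⟩
      rw [h4, h2.2.1, List.length_cons]; ring

omit hR in
theorem comb_spec (z : List ℕ) (d : ℕ) (hz : z.length = d) (hz' : ev x z = 0)
    (Qs : List (List ℕ)) (hQ : Rows x p d Qs) (v : List ℕ) (hv : v.length = Qs.length) :
    (comb p z v Qs).length = d ∧ ev x (comb p z v Qs) = ev (x ^ p) v := by
  induction Qs generalizing v with
  | nil =>
    have : v = [] := List.eq_nil_of_length_eq_zero hv
    subst this
    exact ⟨hz, hz'⟩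
  | cons Q Qs ih =>
    cases v with
    | nil => simp at hv
    | cons a v =>
      have hv' : v.length = Qs.length := by simpa using hv
      obtain ⟨h1, h2⟩ := ih hQ.2.2 v hv'
      obtain ⟨h3, h4⟩ := addm_spec (p := p) (x := x) a Q (comb p z v Qs) (by rw [h1, hQ.1])
      refine ⟨h3.trans hQ.1, ?_⟩
      rw [comb, h4, h2, hQ.2.1, ev, hv']

omit hR in
theorem ev_frob [hp : Fact p.Prime] (v : List ℕ) : (ev x v) ^ p = ev (x ^ p) v := by
  induction v with
  | nil => simp [ev, hp.out.ne_zero]
  | cons a v ih =>
    rw [ev, add_pow_char, ih, mul_pow, ev, ← frobenius_def (p := p) (a : K), map_natCast]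
    ring

/-- good chains -/
def Chain (x : K) (p : ℕ) : List (List ℕ) → Prop
  | [] => True
  | v :: vs => ev x v = x ^ p ^ vs.length ∧ Chain x p vs

omit hR in
theorem chain_spec [hp : Fact p.Prime] (z xx : List ℕ) (d : ℕ) (hz : z.length = d)
    (hz' : ev x z = 0) (hx : xx.length = d) (hx' : ev x xx = x)
    (Qs : List (List ℕ)) (hd : Qs.length = d) (hQ : Rows x p d Qs)
    (V : List (List ℕ)) (h : chainOK p z xx Qs V = true) :
    Chain x p V ∧ ∀ v ∈ V.head?, v.length = d := by
  induction V with
  | nil => simp [chainOK] at h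
  | cons v' V ih =>
    cases V with
    | nil =>
      rw [chainOK] at h
      rw [beqL_eq h]
      exact ⟨⟨by simpa using hx', trivial⟩, by simpa using hx⟩
    | cons v V =>
      rw [chainOK, Bool.and_eq_true] at h
      obtain ⟨h2, h3⟩ := ih h.2
      have h3' : v.length = d := h3 v rfl
      obtain ⟨h4, h5⟩ := comb_spec (p := p) (x := x) z d hz hz' Qs hQ v (by rw [h3', hd])
      rw [← beqL_eq h.1]
      refine ⟨⟨?_, h2⟩, ?_⟩
      · rw [h5, ← ev_frob, h2.1, List.length_cons, ← pow_mul, pow_succ]
      · intro w hw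
        simp only [List.head?_cons, Option.mem_def, Option.some.injEq] at hw
        rw [← hw, h4]

omit hR [CharP K p] in
theorem chain_drop (V : List (List ℕ)) (h : Chain x p V) (k : ℕ) : Chain x p (V.drop k) := by
  induction k generalizing V with
  | zero => simpa using h
  | succ k ih =>
    cases V with
    | nil => simpa using h
    | cons v V => simpa using ih V h.2

end meaning

/-- certificate of `x ^ p ^ n ≠ x` -/
noncomputable def neOK (p : ℕ) (R z one : List ℕ) (V : List (List ℕ)) (n : ℕ) (U : List ℕ) : Bool :=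
  match V.drop (V.length - 1 - n) with
  | [] => false
  | v :: _ => Nat.beq v.length R.length && Nat.beq U.length R.length && Nat.ble (n + 1) V.length &&
    beqL (mulm p R v z U) (addm p 1 one (mulX p R U))

/-- zero -/
def zeroL (d : ℕ) : List ℕ := List.replicate d 0

/-- one -/
def oneL (d : ℕ) : List ℕ := List.replicate (d - 1) 0 ++ [1]

/-- the variable -/
def xL (d : ℕ) : List ℕ := List.replicate (d - 2) 0 ++ [1, 0]

theorem ev_zeroL {K : Type*} [CommRing K] (x : K) (d : ℕ) (v : List ℕ) :
    ev x (List.replicate d 0 ++ v) = ev x v := by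
  induction d with
  | zero => simp
  | succ d ih => simpa [List.replicate_succ, ev] using ih

/-- the complete certificate for degree `d` -/
noncomputable def certOK (p : ℕ) (R : List ℕ) (Qs V : List (List ℕ)) (W : List (ℕ × List ℕ)) : Bool :=
  Nat.beq Qs.length R.length && Nat.beq V.length (R.length + 1) && Nat.ble 2 R.length &&
  rowsOK p R (oneL R.length) Qs && chainOK p (zeroL R.length) (xL R.length) Qs V &&
  (match V with
    | [] => false
    | v :: _ => beqL v (xL R.length)) &&
  W.all (fun w => neOK p R (zeroL R.length) (oneL R.length) V w.1 w.2)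

theorem cert_spec {p : ℕ} [hp : Fact p.Prime] {R : List ℕ} {Qs V : List (List ℕ)}
    {W : List (ℕ × List ℕ)} (h : certOK p R Qs V W = true) {K : Type*} [CommRing K]
    [Nontrivial K] [CharP K p] {x : K} (hR : x ^ R.length = ev x R) :
    x ^ p ^ R.length = x ∧ ∀ w ∈ W, x ^ p ^ w.1 ≠ x := by
  simp only [certOK, Bool.and_eq_true] at h
  obtain ⟨⟨⟨⟨⟨⟨h1, h2⟩, h3⟩, h4⟩, h5⟩, h6⟩, h7⟩ := h
  have h1' := Nat.eq_of_beq_eq_true h1
  have h2' := Nat.eq_of_beq_eq_true h2
  have h3' : 2 ≤ R.length := Nat.le_of_ble_eq_true h3
  have hz : (zeroL R.length).length = R.length := by simp [zeroL]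
  have hz' : ev x (zeroL R.length) = 0 := by
    have := ev_zeroL x R.length []
    simpa [zeroL, ev] using this
  have ho : (oneL R.length).length = R.length := by simp [oneL]; omega
  have ho' : ev x (oneL R.length) = 1 := by
    rw [oneL, ev_zeroL]; simp [ev]
  have hx : (xL R.length).length = R.length := by simp [xL]; omega
  have hx' : ev x (xL R.length) = x := by
    rw [xL, ev_zeroL]; simp [ev]
  have hrows := rows_spec (p := p) hR _ ho ho' Qs h4
  obtain ⟨hch, -⟩ := chain_spec (p := p) (x := x) _ _ _ hz hz' hx hx' Qs h1' hrows V h5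
  constructor
  · cases V with
    | nil => simp at h6
    | cons v V =>
      have h8 := hch.1
      simp only at h6
      rw [beqL_eq h6, hx'] at h8
      have h9 : V.length = R.length := by simpa using h2'
      rw [h9] at h8
      exact h8.symm
  · intro w hw hx1
    have h8 := List.all_eq_true.1 h7 w hw
    have hch' := chain_drop V hch (V.length - 1 - w.1)
    have hlen : (V.drop (V.length - 1 - w.1)).length = V.length - (V.length - 1 - w.1) := by
      rw [List.length_drop]
    simp only [neOK] at h8
    revert h8 hch' hlen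
    generalize V.drop (V.length - 1 - w.1) = V'
    intro h8 hch' hlen
    cases V' with
    | nil => simp at h8
    | cons v vs =>
      simp only [Bool.and_eq_true] at h8
      obtain ⟨⟨⟨h9, h10⟩, h11⟩, h12⟩ := h8
      have h9' := Nat.eq_of_beq_eq_true h9
      have h10' := Nat.eq_of_beq_eq_true h10
      have h11' : w.1 + 1 ≤ V.length := Nat.le_of_ble_eq_true h11
      have hvs : vs.length = w.1 := by
        rw [List.length_cons] at hlen
        omega
      have hv := hch'.1
      rw [hvs, hx1] at hv
      obtain ⟨h13, h14⟩ := mulm_spec (p := p) hR v h9' w.2 (zeroL R.length) hz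
      obtain ⟨h15, h16⟩ := mulX_spec (p := p) hR w.2 h10'
      obtain ⟨h17, h18⟩ := addm_spec (p := p) (x := x) 1 (oneL R.length) (mulX p R w.2)
        (by rw [ho, h15])
      rw [beqL_eq h12, h18, h16, ho', hz', hv] at h14
      have : (1 : K) = 0 := by
        have h19 := h14
        push_cast at h19
        linear_combination h19
      exact one_ne_zero this

/-- every irreducible factor of `f` has the degree `R.length` -/
theorem irreducible_of_cert {p : ℕ} [hp : Fact p.Prime] {R : List ℕ} {Qs V : List (List ℕ)}
    {W : List (ℕ × List ℕ)} (h : certOK p R Qs V W = true) (f : (ZMod p)[X])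
    (hdeg : f.natDegree = R.length) (hd : 0 < R.length)
    (hroot : ∀ (K : Type) [Field K] [CharP K p] [Algebra (ZMod p) K] (x : K), aeval x f = 0 →
      x ^ R.length = ev x R)
    (hdiv : ∀ k ∈ R.length.divisors, k ≠ R.length → ∃ w ∈ W, k ∣ w.1) : Irreducible f := by
  have hf0 : f ≠ 0 := by
    rintro rfl
    simp at hdeg; omega
  have hfu : ¬ IsUnit f := by
    intro hu
    have := natDegree_eq_zero_of_isUnit hu
    omega
  obtain ⟨g, hg, hgf⟩ := WfDvdMonoid.exists_irreducible_factor hfu hf0
  have : Fact (Irreducible g) := ⟨hg⟩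
  have hpos : 0 < g.natDegree := hg.natDegree_pos
  have : CharP (AdjoinRoot g) p := charP_of_injective_algebraMap
    (algebraMap (ZMod p) (AdjoinRoot g)).injective p
  have haev : aeval (AdjoinRoot.root g) f = 0 := by
    obtain ⟨k, rfl⟩ := hgf
    rw [map_mul, AdjoinRoot.aeval_eq, AdjoinRoot.mk_self, zero_mul]
  have hR := hroot (AdjoinRoot g) (AdjoinRoot.root g) haev
  obtain ⟨hA, hB⟩ := cert_spec h hR
  have key : ∀ n : ℕ, g ∣ X ^ p ^ n - X ↔ AdjoinRoot.root g ^ p ^ n = AdjoinRoot.root g := by
    intro n
    rw [← AdjoinRoot.mk_eq_zero, map_sub, map_pow, AdjoinRoot.mk_X, sub_eq_zero]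
  have hcard : Nat.card (ZMod p) = p := Nat.card_zmod p
  have h1 : g.natDegree ∣ R.length := by
    rw [hg.natDegree_dvd_iff_dvd_X_pow_card_pow_sub_X, hcard, key]
    exact hA
  have h2 : g.natDegree = R.length := by
    by_contra hne
    obtain ⟨w, hw, hdw⟩ := hdiv g.natDegree (Nat.mem_divisors.2 ⟨h1, hd.ne'⟩) hne
    apply hB w hw
    rw [← key]
    have h3 := hg.natDegree_dvd_iff_dvd_X_pow_card_pow_sub_X.1 hdw
    rwa [hcard] at h3
  obtain ⟨k, rfl⟩ := hgf
  have hk0 : k ≠ 0 := fun h => hf0 (by rw [h, mul_zero])
  rw [natDegree_mul hg.ne_zero hk0] at hdeg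
  have hk : k.natDegree = 0 := by omega
  have hku : IsUnit k := by
    rw [eq_C_of_natDegree_eq_zero hk] at hk0 ⊢
    exact isUnit_C.2 (isUnit_iff_ne_zero.2 (fun h => hk0 (by rw [h, C_0])))
  exact (associated_mul_unit_right g k hku).irreducible hg

/-- from `ZMod p` to `ℚ` -/
theorem irreducible_rat {p : ℕ} [hp : Fact p.Prime] (f : ℤ[X]) (hf : f.IsPrimitive)
    (hdeg : (f.map (Int.castRingHom (ZMod p))).natDegree = f.natDegree)
    (hirr : Irreducible (f.map (Int.castRingHom (ZMod p)))) :
    Irreducible (f.map (Int.castRingHom ℚ)) := by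
  rw [← Polynomial.IsPrimitive.Int.irreducible_iff_irreducible_map_cast hf]
  refine ⟨fun hu => hirr.not_isUnit (hu.map (mapRingHom (Int.castRingHom (ZMod p)))), ?_⟩
  intro a b hab
  have hab' : f.map (Int.castRingHom (ZMod p)) =
      a.map (Int.castRingHom (ZMod p)) * b.map (Int.castRingHom (ZMod p)) := by
    rw [hab, Polynomial.map_mul]
  have hf0 : f ≠ 0 := by
    rintro rfl
    exact hirr.ne_zero (by simp)
  have ha0 : a ≠ 0 := fun h => hf0 (by rw [hab, h, zero_mul])
  have hb0 : b ≠ 0 := fun h => hf0 (by rw [hab, h, mul_zero])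
  have ham0 : a.map (Int.castRingHom (ZMod p)) ≠ 0 := fun h =>
    hirr.ne_zero (by rw [hab', h, zero_mul])
  have hbm0 : b.map (Int.castRingHom (ZMod p)) ≠ 0 := fun h =>
    hirr.ne_zero (by rw [hab', h, mul_zero])
  have hd1 : f.natDegree = a.natDegree + b.natDegree := by rw [hab, natDegree_mul ha0 hb0]
  have hd2 : (f.map (Int.castRingHom (ZMod p))).natDegree =
      (a.map (Int.castRingHom (ZMod p))).natDegree +
        (b.map (Int.castRingHom (ZMod p))).natDegree := by
    rw [hab', natDegree_mul ham0 hbm0]
  have hda := natDegree_map_le (f := Int.castRingHom (ZMod p)) (p := a)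
  have hdb := natDegree_map_le (f := Int.castRingHom (ZMod p)) (p := b)
  have main : ∀ c d : ℤ[X], f = c * d → IsUnit (c.map (Int.castRingHom (ZMod p))) →
      (c.map (Int.castRingHom (ZMod p))).natDegree = c.natDegree → IsUnit c := by
    intro c d hcd hu hc
    have hc0 : c.natDegree = 0 := by rw [← hc]; exact natDegree_eq_zero_of_isUnit hu
    rw [eq_C_of_natDegree_eq_zero hc0] at hcd ⊢
    exact isUnit_C.2 (hf _ ⟨d, hcd⟩)
  rcases hirr.isUnit_or_isUnit hab' with hu | hu
  · left
    exact main a b hab hu (by omega)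
  · right
    exact main b a (by rw [hab, mul_comm]) hu (by omega)

end Pool.Agent.CYD.H81
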