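import Pool.Agent.Helper85_CYD.St1
import Pool.Agent.Helper81_CYD.Rabin

/-! # CYD, module C21: the derivative of the cyclotomic polynomial of order 21 is irreducible
(it is irreducible modulo 23) -/

set_option autoImplicit false
set_option maxRecDepth 100000

open Polynomial

namespace Pool.Agent.CYD

namespace C21

open Pool.Agent.CYD.H81

/-- the coefficients of the rest -/
def R : List ℕ := [22, 0, 5, 16, 0, 11, 0, 8, 17, 0, 2]

/-- the rows -/
def Qs : List (List ℕ) := [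
    [10, 11, 9, 7, 14, 15, 7, 21, 5, 15, 15],
    [7, 13, 22, 1, 14, 22, 5, 6, 10, 21, 11],
    [15, 4, 9, 13, 22, 20, 22, 15, 12, 1, 17],
    [12, 14, 13, 7, 9, 8, 6, 8, 1, 16, 5],
    [8, 20, 11, 15, 19, 18, 11, 15, 14, 7, 12],
    [15, 6, 9, 20, 8, 14, 5, 13, 2, 8, 10],
    [6, 14, 19, 21, 15, 19, 9, 4, 14, 4, 12],
    [6, 21, 10, 15, 0, 1, 15, 17, 11, 15, 18],
    [6, 17, 10, 7, 22, 4, 18, 18, 17, 21, 5],
    [5, 8, 4, 13, 6, 12, 3, 2, 13, 22, 4],
    [0, 0, 0, 0, 0, 0, 0, 0, 0, 0, 1]]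

/-- the powers -/
def V : List (List ℕ) := [
    [0, 0, 0, 0, 0, 0, 0, 0, 0, 1, 0],
    [10, 19, 22, 20, 18, 2, 13, 20, 17, 16, 14],
    [12, 0, 13, 16, 18, 8, 1, 22, 18, 1, 0],
    [15, 7, 13, 14, 9, 2, 6, 15, 19, 1, 11],
    [0, 21, 0, 17, 17, 17, 1, 3, 3, 21, 7],
    [15, 7, 14, 12, 14, 19, 11, 16, 3, 4, 1],
    [19, 2, 20, 16, 8, 16, 17, 7, 11, 14, 3],
    [12, 18, 22, 19, 16, 16, 14, 4, 2, 3, 14],
    [18, 15, 9, 14, 7, 18, 15, 13, 12, 20, 10],
    [9, 18, 21, 20, 2, 5, 11, 13, 17, 12, 4],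
    [5, 8, 4, 13, 6, 12, 3, 2, 13, 22, 4],
    [0, 0, 0, 0, 0, 0, 0, 0, 0, 1, 0]]

/-- the inverses -/
def W : List (ℕ × List ℕ) := [(1, [10, 12, 4, 3, 15, 8, 18, 5, 5, 6, 18])]

theorem ok : certOK 23 R Qs V W = true := by decide +kernel

instance : Fact (Nat.Prime 23) := ⟨by norm_num⟩

/-- the derivative -/
noncomputable def f : ℤ[X] := 12 * X ^ 11 - 11 * X ^ 10 + 9 * X ^ 8 - 8 * X ^ 7 + 6 * X ^ 5 - 4 * X ^ 3 + 3 * X ^ 2 -
      1

theorem cyc : cyclotomic 21 ℤ =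
    X ^ 12 - X ^ 11 + X ^ 9 - X ^ 8 + X ^ 6 - X ^ 4 + X ^ 3 - X + 1 := by
  have h := cyclotomic_expand_eq_cyclotomic_mul (p := 7) (n := 3) (by norm_num) (by norm_num) ℤ
  have h1 : cyclotomic 3 ℤ = X ^ 2 + X + 1 := by
    have : Fact (Nat.Prime 3) := ⟨by norm_num⟩
    rw [cyclotomic_prime]
    simp only [Finset.sum_range_succ, Finset.sum_range_zero]
    ring
  have h2 : cyclotomic 3 ℤ ≠ 0 := cyclotomic_ne_zero _ _
  have h3 : (3 * 7 : ℕ) = 21 := by norm_num
  rw [h3] at h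
  apply mul_right_cancel₀ h2
  rw [← h, h1]
  simp only [map_add, map_pow, expand_X, map_one]
  ring

theorem der : derivative (cyclotomic 21 ℤ) = f := by
  rw [cyc, f]
  simp only [derivative_add, derivative_sub, derivative_X_pow, derivative_X, derivative_one]
  norm_num

theorem deg : f.natDegree = 11 := by
  rw [f]
  compute_degree!

theorem lead : f.leadingCoeff = 12 := by
  rw [leadingCoeff, deg, f]
  simp [coeff_one, coeff_X_pow]

theorem prim : f.IsPrimitive := by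
  intro r hr
  have h1 : r ∣ f.coeff 0 := (C_dvd_iff_dvd_coeff r f).1 hr 0
  have h2 : f.coeff 0 = -1 := by
    rw [f]
    simp
  rw [h2] at h1
  exact isUnit_of_dvd_unit h1 (by norm_num)

theorem degmap : (f.map (Int.castRingHom (ZMod 23))).natDegree = f.natDegree := by
  apply natDegree_map_of_leadingCoeff_ne_zero
  rw [lead]
  decide

theorem root (K : Type) [Field K] [CharP K 23] [Algebra (ZMod 23) K] (x : K)
    (h : aeval x (f.map (Int.castRingHom (ZMod 23))) = 0) : x ^ R.length = ev x R := by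
  have hp : (23 : K) = 0 := by
    have := CharP.cast_eq_zero K 23
    exact_mod_cast this
  have h1 : 12 * x ^ 11 - 11 * x ^ 10 + 9 * x ^ 8 - 8 * x ^ 7 + 6 * x ^ 5 - 4 * x ^ 3 + 3 * x ^ 2 -
      1 = 0 := by
    rw [← h, f]
    simp [map_ofNat]
  simp only [R, ev, List.length_cons, List.length_nil]
  push_cast
  linear_combination (2) * h1 + (-x ^ 11 - x ^ 8 - x ^ 5 - x ^ 2) * hp

theorem irr : Irreducible (f.map (Int.castRingHom (ZMod 23))) := by
  refine irreducible_of_cert ok _ (by rw [degmap, deg]; rfl) (by decide) root ?_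
  decide +kernel

end C21

theorem cert21 : CertStmt 21 := by
  rw [CertStmt, ← map_cyclotomic_int, derivative_map, C21.der]
  exact H81.irreducible_rat C21.f C21.prim C21.degmap C21.irr

end Pool.Agent.CYD
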