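import Pool.Agent.Helper85_CYD.StG
import Pool.Agent.Helper85_CYD.St1

/-! # CYD, module LIN -/

set_option autoImplicit false

open Polynomial IsLocalRing

namespace Pool.Agent.CYD

namespace H81

theorem prim_mul {K : Type} [Field K] {p q : ℕ} (hp : p.Prime) (hq : q.Prime) (hpq : p ≠ q)
    {c w : K} (hc : IsPrimitiveRoot c q) (hw : IsPrimitiveRoot w p) :
    IsPrimitiveRoot (c * w) (p * q) := by
  have hcop : (orderOf c).Coprime (orderOf w) := by
    rw [← hc.eq_orderOf, ← hw.eq_orderOf]
    exact (Nat.coprime_primes hq hp).2 hpq.symm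
  have h1 := (Commute.all c w).orderOf_mul_eq_mul_orderOf_of_coprime hcop
  rw [← hc.eq_orderOf, ← hw.eq_orderOf] at h1
  have h2 := IsPrimitiveRoot.orderOf (c * w)
  rw [h1, mul_comm q p] at h2
  exact h2

theorem mem_of_root {K : Type} [Field K] (A : ValuationSubring K) {x : K} {n : ℕ} (hn : 0 < n)
    (hx : x ^ n = 1) : x ∈ A := by
  rw [← A.valuation_le_one_iff]
  by_contra h
  rw [not_le] at h
  have h1 : 1 < A.valuation x ^ n := one_lt_pow₀ h hn.ne'
  rw [← map_pow, hx, map_one] at h1
  exact lt_irrefl _ h1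

end H81

theorem lin (hGen : GenStmt) (hTam : TamStmt) (hAbs : AbsStmt) (hAwy : AwyStmt) : LinStmt := by
  intro n p q g h F K _ _ _ hq0 c w hc hw k hk
  have hprim : ∀ c w : K, IsPrimitiveRoot c q → IsPrimitiveRoot w p →
      IsPrimitiveRoot (c * w) n := by
    intro c w hc hw
    rw [F.hn]
    exact H81.prim_mul F.hp F.hq F.hpq hc hw
  refine hGen p q F.hp F.hq F.hp2 F.hq2 F.hpq K (fun x y => uu g (x * y))
    (fun A c => ex A g q c) ?_ ?_ ?_ ?_ c w hc hw k hk
  · intro σ x y
    have hσ : ∀ (f : ℤ[X]) (z : K), σ (aeval z f) = aeval (σ z) f := fun f z => by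
      exact (Polynomial.aeval_algHom_apply ((σ : K →ₐ[ℚ] K).restrictScalars ℤ) z f).symm
    simp only [uu, map_div₀, hσ, map_mul]
  · intro φ c w hc hw
    exact (hAbs n g h F.toFg K (c * w) (hprim c w hc hw)).2.2 φ
  · intro A hpA c w hc hw
    have hx := hprim c w hc hw
    have hcA : c ∈ A := H81.mem_of_root A F.hq.pos hc.pow_eq_one
    have hwA : w ∈ A := H81.mem_of_root A F.hp.pos hw.pow_eq_one
    have hunit : ∀ t : A, IsUnit t → uu g (c * w) = (t : K) →
        uu g (c * w) ∈ A ∧ (uu g (c * w))⁻¹ ∈ A := by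
      intro t ht htt
      obtain ⟨u, rfl⟩ := ht
      rw [htt]
      refine ⟨(u : A).2, ?_⟩
      have h1 : ((u : A) : K)⁻¹ = (((u⁻¹ : Aˣ) : A) : K) := by
        rw [inv_eq_iff_eq_inv]
        apply eq_inv_of_mul_eq_one_left
        rw [← A.coe_mul]
        simp
      rw [h1]
      exact ((u⁻¹ : Aˣ) : A).2
    by_cases hqA : IsUnit (q : A)
    · have hnA : IsUnit (n : A) := by
        rw [F.hn, Nat.cast_mul]
        exact hpA.mul hqA
      set x : A := ⟨c * w, A.mul_mem _ _ hcA hwA⟩ with hxdef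
      have hxp : IsPrimitiveRoot x n := by
        have : Function.Injective A.subtype := A.subtype_injective
        exact IsPrimitiveRoot.of_map_of_injective (f := A.subtype) hx this
      obtain ⟨h1, h2⟩ := hAwy n g h F.toFg K A x hnA hxp
      have hcoe : ∀ f : ℤ[X], ((aeval x f : A) : K) = aeval (c * w) f := fun f => by
        exact (Polynomial.aeval_algebraMap_apply K x f).symm
      obtain ⟨u, hu⟩ := h1
      obtain ⟨v, hv⟩ := h2
      apply hunit ((v * u⁻¹ : Aˣ) : A) (v * u⁻¹).isUnit
      rw [uu, ← hcoe, ← hcoe, ← hu, ← hv, Units.val_mul, A.coe_mul, div_eq_mul_inv]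
      congr 1
      rw [inv_eq_iff_eq_inv]
      apply eq_inv_of_mul_eq_one_left
      rw [← A.coe_mul]
      simp
    · have hqm : (q : A) ∈ maximalIdeal A := by
        rwa [mem_maximalIdeal, mem_nonunits_iff]
      set w' : A := ⟨w, hwA⟩
      set c' : A := ⟨c, hcA⟩
      have hL : Loc q p A w' c' :=
        ⟨hqm, IsPrimitiveRoot.of_map_of_injective (f := A.subtype) hw A.subtype_injective,
          IsPrimitiveRoot.of_map_of_injective (f := A.subtype) hc A.subtype_injective⟩
      obtain ⟨C, hC, hk⟩ := hTam n q p g h F.symm K A w' c' hL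
      obtain ⟨θ, h1, h2⟩ := hk 1 (by
        intro h
        exact F.hq.one_lt.ne' (Nat.dvd_one.1 h))
      rw [hq0 A w' c' hL] at h1 h2
      have hθ : IsUnit θ := by
        by_contra hθ
        have h3 : θ ∈ maximalIdeal A := by rwa [mem_maximalIdeal, mem_nonunits_iff]
        have h4 : residue A θ = 0 := (residue_eq_zero_iff _).2 h3
        rw [h4] at h1
        simp at h1
        exact hC h1.symm
      apply hunit θ hθ
      rw [mul_comm c w]
      simpa using h2
  · intro A c w hL
    exact hTam n p q g h F K A c w hL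

end Pool.Agent.CYD
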