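import Pool.Agent.Helper85_CYD.St2

/-! # CYD, module RAD -/

set_option autoImplicit false

open Polynomial

namespace Pool.Agent.CYD

theorem rad : RadStmt := by
  intro L _ f Δ k hΔ
  induction f using WfDvdMonoid.induction_on_irreducible with
  | zero =>
    intro hf
    exact absurd (zero_dvd_iff.1 hf) (pow_ne_zero _ hΔ)
  | unit u hu =>
    intro _
    obtain ⟨c, hc, rfl⟩ := Polynomial.isUnit_iff.1 hu
    exact ⟨0, by simp, by simp⟩
  | mul a i ha hi ih =>
    intro hf
    obtain ⟨N, hN, hN'⟩ := ih ((Dvd.intro_left i rfl).trans hf)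
    have hiΔ : i ∣ Δ := by
      have h1 : i ∣ Δ ^ k := (Dvd.intro a rfl).trans hf
      exact hi.prime.dvd_of_dvd_pow h1
    obtain ⟨δ, rfl⟩ := hiΔ
    have hi0 : i ≠ 0 := hi.ne_zero
    have hδ0 : δ ≠ 0 := fun h => hΔ (by rw [h, mul_zero])
    have hdi : 0 < i.natDegree := hi.natDegree_pos
    refine ⟨δ * (X * derivative i) + N, ?_, ?_⟩
    · refine (natDegree_add_le _ _).trans (max_le ?_ hN)
      rw [natDegree_mul hi0 hδ0]
      have h1 : (X * derivative i).natDegree ≤ 1 + (i.natDegree - 1) :=
        natDegree_mul_le.trans (add_le_add natDegree_X_le (natDegree_derivative_le i))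
      have h2 : (δ * (X * derivative i)).natDegree ≤ δ.natDegree + (X * derivative i).natDegree :=
        natDegree_mul_le
      omega
    · rw [derivative_mul]
      linear_combination i * hN'

end Pool.Agent.CYD
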